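import Pool.Agent.Helper7.TY.Closure
import Pool.Agent.Helper7.TB.ClD

/-!
MP_8ee768_co, project TH-Y', stage TB2: closure of the rows under the automorphisms, part 0.
-/

set_option autoImplicit false
set_option maxRecDepth 100000

namespace Pool.Agent.Gen.TY.TB2

open Pool.Agent.Helper7.TY (clT)
open Pool.Agent.Helper7.TB

theorem cl0_ok : cl0.all clT = true := by decide +kernel

end Pool.Agent.Gen.TY.TB2
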