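import Pool.Agent.Gen.TY.ISO.All
import Pool.Agent.Gen.TY.FLG.All
import Pool.Agent.Gen.TY.TB2.Cl0
import Pool.Agent.Gen.TY.TB2.Cl1
import Pool.Agent.Gen.TY.TB2.Cl2
import Pool.Agent.Gen.TY.TB2.Cl3
import Pool.Agent.Helper7.TY.IsoT
import Pool.Agent.Helper7.TY.TB2P

/-!
MP_8ee768_co, project TH-Y', stage TB2: everything from the class theorem `RootOK` alone.
-/

set_option autoImplicit false

namespace Pool.Agent.Gen.TY.TB2

open Finset
open Pool.Agent.Helper97.CV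
open Pool.Agent.Helper79.CV
open Pool.Agent.Helper63.SIMD
open Pool.Agent.Helper82.TY (below)
open Pool.Agent.Helper7.TB
open Pool.Agent.Helper7.TY
open Pool.Agent.Helper16.TY (reps)

theorem clH : ClH := ⟨cl0_ok, cl1_ok, cl2_ok, cl3_ok⟩

/-- **isomorphisms of the types and the rows** -/
theorem isoL : IsoL 5074 typ fun t => LSet (nl t) (lane t) (cls t) :=
  isoL_lane Pool.Agent.Gen.TY.ISO.isoH clH

/-- **TB2 with class numbers** -/
theorem tb2_lab (hR : RootOK 6 (fun _ => True) reps) {t : ℕ} (h2 : 2 ≤ t) (ht : t < 5074)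
    {D : Finset (Finset (Fin 13))} (hD : OddFam 3 (below 12) D)
    (hlink : link D 11 = fam 11 3 (typ t)) (hcap : 2 * D.card ≤ 114 + 6) :
    ∃ i < nl t, D.filter (fun s => (11 : Fin 13) ∉ s) = fam 11 4 (fld 330 (row t) i) ∧
      ∃ r, reps[cls t i]? = some r ∧ ∃ σ : Equiv.Perm (Fin 13), σ 12 = 12 ∧
        mapF σ D = fam 12 4 r :=
  TB2_lab hR Pool.Agent.Gen.TY.FLG.flagL isoL h2 ht hD hlink hcap

/-- **TB2** -/
theorem tb2 (hR : RootOK 6 (fun _ => True) reps) {t : ℕ} (h2 : 2 ≤ t) (ht : t < 5074) :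
    TableOK (typ t) 6 (fun _ => True) {E | ∃ i < nl t, E = fam 11 4 (fld 330 (row t) i)} :=
  TB2 hR Pool.Agent.Gen.TY.FLG.flagL isoL h2 ht

/-- **TB2 as a table with class numbers** -/
theorem tb2_tabP (hR : RootOK 6 (fun _ => True) reps) {t : ℕ} (h2 : 2 ≤ t) (ht : t < 5074) :
    TabP reps (typ t) 6 (fun _ _ => True) (rowL t) :=
  TB2_tabP hR Pool.Agent.Gen.TY.FLG.flagL isoL h2 ht

end Pool.Agent.Gen.TY.TB2
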